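import Mathlib
import Pool.Agent.Lib.MP_d98278_an.Det
import Pool.Agent.Lib.MP_d98278_an.Walk

/-!
# Lyapunov exponents of locally constant cocycles of range `N ≥ 1` jump

For every `N ≥ 1`, every Polish space `X` and every Borel probability `p` on `X` which is not
carried by a countable set there is a locally constant cocycle `A` of range `N` such that both
extremal Lyapunov exponents are discontinuous at `(A, p)`.
-/

open MeasureTheory Filter Topology
open scoped ENNReal Matrix.Norms.L2Operator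

namespace Pool.Agent.Results.MP_d98278_an.RangeOneJump

open LyapunovJump

/-- The shift `(f x)_n = x_{n+1}`. -/
def shift {X : Type} (x : ℤ → X) : ℤ → X := fun n => x (n + 1)

/-- `A^n(x) = A(f^{n-1} x) ⋯ A(f x) A(x)`. -/
noncomputable def iter {X : Type} (A : (ℤ → X) → Mat) : ℕ → (ℤ → X) → Mat
  | 0, _ => 1
  | n + 1, x => A (shift^[n] x) * iter A n x

/-- Locally constant cocycles of range `N`: measurable maps into `GL(2, ℂ)` depending only on the
coordinates `-N, …, N`, with `log ‖A^{±1}‖` bounded. -/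
structure IsCocycle {X : Type} [MeasurableSpace X] (N : ℕ) (A : (ℤ → X) → Mat) : Prop where
  measurable : ∀ i j, Measurable fun x => A x i j
  isUnit : ∀ x, IsUnit (A x)
  locally_constant : ∀ x y : ℤ → X, (∀ i : ℤ, |i| ≤ N → x i = y i) → A x = A y
  bounded : ∃ C : ℝ, ∀ x, |Real.log ‖A x‖| ≤ C ∧ |Real.log ‖(A x)⁻¹‖| ≤ C

/-- The product measure `p^ℤ`. -/
noncomputable def bernoulli {X : Type} [MeasurableSpace X] (p : Measure X) : Measure (ℤ → X) :=
  Measure.infinitePi fun _ : ℤ => p

/-- `L` is the exponent `λ₊(A, p)`. -/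
def IsLamPlus {X : Type} [MeasurableSpace X] (A : (ℤ → X) → Mat) (p : Measure X) (L : ℝ) : Prop :=
  ∀ᵐ x ∂(bernoulli p), Tendsto (fun n : ℕ => (1 / (n : ℝ)) * Real.log ‖iter A n x‖) atTop (𝓝 L)

/-- `L` is the exponent `λ₋(A, p)`. -/
def IsLamMinus {X : Type} [MeasurableSpace X] (A : (ℤ → X) → Mat) (p : Measure X) (L : ℝ) : Prop :=
  ∀ᵐ x ∂(bernoulli p),
    Tendsto (fun n : ℕ => (1 / (n : ℝ)) * Real.log (‖(iter A n x)⁻¹‖⁻¹)) atTop (𝓝 L)

/-- `d(A, B) = sup_x ‖A(x) - B(x)‖`. -/
noncomputable def dCoc {X : Type} (A B : (ℤ → X) → Mat) : ℝ≥0∞ :=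
  ⨆ x : ℤ → X, ENNReal.ofReal ‖A x - B x‖

/-- `d(p, q) = sup_φ |∫ φ d(p - q)|` over measurable `φ` with `|φ| ≤ 1`. -/
noncomputable def dProb {X : Type} [MeasurableSpace X] (p q : Measure X) : ℝ≥0∞ :=
  ⨆ (φ : X → ℝ) (_ : Measurable φ) (_ : ∀ a, |φ a| ≤ 1),
    ENNReal.ofReal |∫ a, φ a ∂p - ∫ a, φ a ∂q|

/-- `(B, q)` belongs to the basic neighbourhood `V(A, p, γ, Z)`. -/
def InV {X : Type} [MeasurableSpace X] (N : ℕ) (A : (ℤ → X) → Mat) (p : Measure X) (γ : ℝ)
    (Z : Set X) (B : (ℤ → X) → Mat) (q : Measure X) : Prop :=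
  IsCocycle N B ∧ IsProbabilityMeasure q ∧
    dCoc A B < ENNReal.ofReal γ ∧ q Z = 1 ∧ dProb p q < ENNReal.ofReal γ

/-- Continuity of `λ₊` at the pair `(A, p)`. -/
def PlusContinuousAt {X : Type} [MeasurableSpace X] (N : ℕ) (A : (ℤ → X) → Mat)
    (p : Measure X) : Prop :=
  ∀ ε : ℝ, 0 < ε → ∃ γ : ℝ, 0 < γ ∧ ∃ Z : Set X, MeasurableSet Z ∧ p Z = 1 ∧
    ∀ (B : (ℤ → X) → Mat) (q : Measure X), InV N A p γ Z B q →
      ∀ L L' : ℝ, IsLamPlus A p L → IsLamPlus B q L' → |L' - L| < ε

/-- Continuity of `λ₋` at the pair `(A, p)`. -/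
def MinusContinuousAt {X : Type} [MeasurableSpace X] (N : ℕ) (A : (ℤ → X) → Mat)
    (p : Measure X) : Prop :=
  ∀ ε : ℝ, 0 < ε → ∃ γ : ℝ, 0 < γ ∧ ∃ Z : Set X, MeasurableSet Z ∧ p Z = 1 ∧
    ∀ (B : (ℤ → X) → Mat) (q : Measure X), InV N A p γ Z B q →
      ∀ L L' : ℝ, IsLamMinus A p L → IsLamMinus B q L' → |L' - L| < ε

/-! ### The cocycle -/

theorem shift_iterate {X : Type} (n : ℕ) (x : ℤ → X) (m : ℤ) : shift^[n] x m = x (m + n) := by
  induction n generalizing m with
  | zero => simp
  | succ n ih =>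
    rw [Function.iterate_succ_apply', shift, ih]
    congr 1
    push_cast
    ring

section

variable {X : Type} [MeasurableSpace X]

/-- The coincidence set: `x₀ = x₁` is not an atom of `p`. -/
def flipSet (p : Measure X) : Set (ℤ → X) := {x | x 0 = x 1 ∧ p {x 0} = 0}

/-- The cocycle. -/
noncomputable def coc (p : Measure X) (x : ℤ → X) : Mat := by
  classical exact if x ∈ flipSet p then rot else dg 1

theorem coc_of_mem {p : Measure X} {x : ℤ → X} (h : x ∈ flipSet p) : coc p x = rot := by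
  unfold coc
  rw [if_pos h]

theorem coc_of_not_mem {p : Measure X} {x : ℤ → X} (h : x ∉ flipSet p) : coc p x = dg 1 := by
  unfold coc
  rw [if_neg h]

theorem coc_shift_mem {p : Measure X} {x : ℤ → X} {n : ℕ} :
    shift^[n] x ∈ flipSet p ↔ (x n = x ((n + 1 : ℕ) : ℤ) ∧ p {x n} = 0) := by
  unfold flipSet
  rw [Set.mem_ofPred_eq, shift_iterate, shift_iterate, zero_add]
  have : (1 : ℤ) + n = ((n + 1 : ℕ) : ℤ) := by push_cast; ring
  rw [this]

theorem iter_eq {p : Measure X} {x : ℤ → X} {y : ℕ → ℝ} (hy : ∀ n, y n = 0 ∨ y n = 1)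
    (h : ∀ n : ℕ, (x n = x ((n + 1 : ℕ) : ℤ) ∧ p {x n} = 0) ↔ y n * y (n + 1) = 1) (n : ℕ) :
    ∃ (k : ℕ) (S : ℤ), iter (coc p) n x = rot ^ k * dg S ∧ (S : ℝ) = ps y n ∧
      ((-1 : ℝ)) ^ k = sg y n := by
  induction n with
  | zero =>
    refine ⟨0, 0, ?_, ?_, ?_⟩
    · rw [iter, pow_zero, one_mul, dg_zero]
    · simp [ps]
    · simp [sg]
  | succ n ih =>
    obtain ⟨k, S, h1, h2, h3⟩ := ih
    by_cases hf : y n * y (n + 1) = 1
    · refine ⟨k + 1, S, ?_, ?_, ?_⟩
      · rw [iter, coc_of_mem (coc_shift_mem.mpr ((h n).mpr hf)), h1, pow_succ', mul_assoc]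
      · rw [ps, hf, h2, sub_self, mul_zero, add_zero]
      · rw [sg, hf, pow_succ, h3]; ring
    · have hf' : y n * y (n + 1) = 0 := by
        rcases hy n with e | e
        · rw [e, zero_mul]
        · rcases hy (n + 1) with e' | e'
          · rw [e', mul_zero]
          · exact absurd (by rw [e, e', one_mul]) hf
      refine ⟨k, (-1) ^ k * 1 + S, ?_, ?_, ?_⟩
      · rw [iter, coc_of_not_mem (fun hm => hf ((h n).mp (coc_shift_mem.mp hm))), h1, ← mul_assoc,
          dg_mul_rot_pow, mul_assoc, dg_mul]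
      · rw [ps, hf']
        push_cast
        rw [h3, h2]
        ring
      · rw [sg, hf', h3]; ring

theorem log_norm_iter {p : Measure X} {x : ℤ → X} {y : ℕ → ℝ} (hy : ∀ n, y n = 0 ∨ y n = 1)
    (h : ∀ n : ℕ, (x n = x ((n + 1 : ℕ) : ℤ) ∧ p {x n} = 0) ↔ y n * y (n + 1) = 1) (n : ℕ) :
    Real.log ‖iter (coc p) n x‖ = |ps y n| * Real.log 2 ∧
      Real.log (‖(iter (coc p) n x)⁻¹‖⁻¹) = -(|ps y n| * Real.log 2) := by
  obtain ⟨k, S, h1, h2, h3⟩ := iter_eq hy h n
  rw [h1, norm_rot_pow_mul_dg, norm_inv_rot_pow_mul_dg, Real.log_inv, log_two_zpow, h2]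
  exact ⟨rfl, rfl⟩

/-- Two consecutive letters do not coincide at a point without mass. -/
theorem ae_no_coincidence [MeasurableEq X] {ν : Measure X} [IsProbabilityMeasure ν] {W : Set X}
    (hW : MeasurableSet W) (hν : ∀ a ∈ W, ν {a} = 0) :
    ∀ᵐ x ∂(bernoulli ν), ∀ n : ℕ, ¬ (x n = x ((n + 1 : ℕ) : ℤ) ∧ x n ∈ W) := by
  rw [ae_all_iff]
  intro n
  have hind : ProbabilityTheory.iIndepFun (fun (i : ℤ) (x : ℤ → X) => x i) (bernoulli ν) :=
    ProbabilityTheory.iIndepFun_infinitePi (P := fun _ : ℤ => ν) (X := fun _ => id)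
      (fun _ => measurable_id)
  have hne : (n : ℤ) ≠ ((n + 1 : ℕ) : ℤ) := by push_cast; omega
  have h1 := hind.indepFun hne
  have hmap : ∀ i : ℤ, Measure.map (fun x : ℤ → X => x i) (bernoulli ν) = ν := fun i =>
    (measurePreserving_eval_infinitePi (fun _ : ℤ => ν) i).map_eq
  have : IsProbabilityMeasure (bernoulli ν) := by unfold bernoulli; infer_instance
  rw [ProbabilityTheory.indepFun_iff_map_prod_eq_prod_map_map (measurable_pi_apply _).aemeasurable
    (measurable_pi_apply _).aemeasurable, hmap, hmap] at h1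
  have hset : MeasurableSet {w : X × X | ¬ (w.1 = w.2 ∧ w.1 ∈ W)} := by
    refine MeasurableSet.compl ?_
    exact (measurableSet_eq_fun measurable_fst measurable_snd).inter (measurable_fst hW)
  have h2 : ∀ᵐ w ∂(ν.prod ν), ¬ (w.1 = w.2 ∧ w.1 ∈ W) := by
    rw [Measure.ae_prod_iff_ae_ae hset]
    refine Filter.Eventually.of_forall fun a => ?_
    by_cases ha : a ∈ W
    · have h3 : ∀ᵐ b ∂ν, b ∉ ({a} : Set X) := by
        rw [ae_iff]
        simpa using hν a ha
      filter_upwards [h3] with b hb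
      intro hab
      exact hb (by simpa using hab.1.symm)
    · exact Filter.Eventually.of_forall fun b hab => ha hab.2
  rw [← h1] at h2
  exact ae_of_ae_map ((measurable_pi_apply _).prodMk (measurable_pi_apply _)).aemeasurable h2

/-- The set of points without mass is measurable. -/
theorem measurableSet_null_points [MeasurableSingletonClass X] (p : Measure X) [SFinite p] :
    MeasurableSet {a : X | p {a} = 0} := by
  have h1 : {a : X | 0 < p {b : X | b = a}}.Countable :=
    Measure.countable_meas_level_set_pos measurable_id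
  have h2 : {a : X | p {a} = 0} = {a : X | 0 < p {b : X | b = a}}ᶜ := by
    ext a
    simp only [Set.mem_ofPred_eq, Set.mem_compl_iff, Set.ofPred_eq_eq_singleton, not_lt,
      le_zero_iff]
  rw [h2]
  exact h1.measurableSet.compl

theorem measurableSet_flipSet [MeasurableEq X] [MeasurableSingletonClass X] (p : Measure X)
    [SFinite p] : MeasurableSet (flipSet p) := by
  have h1 : Measurable fun x : ℤ → X => x 0 := measurable_pi_apply 0
  have h2 : Measurable fun x : ℤ → X => x 1 := measurable_pi_apply 1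
  exact (measurableSet_eq_fun h1 h2).inter (h1 (measurableSet_null_points p))

theorem isCocycle_coc [MeasurableEq X] [MeasurableSingletonClass X] (p : Measure X) [SFinite p]
    {N : ℕ} (hN : 1 ≤ N) : IsCocycle N (coc p) := by
  have hcase : ∀ x : ℤ → X, coc p x = rot ^ 1 * dg 0 ∨ coc p x = rot ^ 0 * dg 1 := by
    intro x
    by_cases h : x ∈ flipSet p
    · left; rw [coc_of_mem h, dg_zero, pow_one, mul_one]
    · right; rw [coc_of_not_mem h, pow_zero, one_mul]
  refine ⟨?_, ?_, ?_, ?_⟩
  · intro i j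
    classical
    have : (fun x : ℤ → X => coc p x i j) = Set.piecewise (flipSet p) (fun _ => rot i j)
        (fun _ => dg 1 i j) := by
      funext x
      by_cases h : x ∈ flipSet p
      · rw [Set.piecewise_eq_of_mem _ _ _ h, coc_of_mem h]
      · rw [Set.piecewise_eq_of_notMem _ _ _ h, coc_of_not_mem h]
    rw [this]
    exact Measurable.piecewise (measurableSet_flipSet p) measurable_const measurable_const
  · intro x
    have hunit : ∀ (k : ℕ) (m : ℤ), IsUnit (rot ^ k * dg m) := by
      intro k m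
      have h1 : IsUnit (dg m) := IsUnit.of_mul_eq_one (dg (-m)) (by
        rw [dg_mul, add_neg_cancel, dg_zero])
      have h2 : IsUnit (rot ^ k) := by
        have := (Unitary.mem_iff.mp (rot_pow_mem k)).2
        exact IsUnit.of_mul_eq_one _ this
      exact h2.mul h1
    rcases hcase x with h | h <;> rw [h] <;> exact hunit _ _
  · intro x y hxy
    have h0 : x 0 = y 0 := hxy 0 (by simp)
    have h1 : x 1 = y 1 := hxy 1 (by simpa using (by exact_mod_cast hN))
    have hiff : x ∈ flipSet p ↔ y ∈ flipSet p := by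
      unfold flipSet
      rw [Set.mem_ofPred_eq, Set.mem_ofPred_eq, h0, h1]
    by_cases h : x ∈ flipSet p
    · rw [coc_of_mem h, coc_of_mem (hiff.mp h)]
    · rw [coc_of_not_mem h, coc_of_not_mem fun h' => h (hiff.mpr h')]
  · refine ⟨Real.log 2, fun x => ?_⟩
    have hlog : 0 ≤ Real.log 2 := Real.log_nonneg (by norm_num)
    have hall : ∀ (k : ℕ) (m : ℤ), |m| ≤ 1 → |Real.log ‖rot ^ k * dg m‖| ≤ Real.log 2 ∧
        |Real.log ‖(rot ^ k * dg m)⁻¹‖| ≤ Real.log 2 := by
      intro k m hm
      rw [norm_rot_pow_mul_dg, norm_inv_rot_pow_mul_dg, log_two_zpow]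
      have h1 : |(m : ℝ)| ≤ 1 := by exact_mod_cast hm
      have h2 : |(|(m : ℝ)| * Real.log 2)| ≤ Real.log 2 := by
        rw [abs_of_nonneg (by positivity)]
        nlinarith
      exact ⟨h2, h2⟩
    rcases hcase x with h | h <;> rw [h] <;> apply hall <;> norm_num

end

section main

variable {X : Type} [TopologicalSpace X] [PolishSpace X] [MeasurableSpace X] [BorelSpace X]

theorem exponents_p (p : Measure X) [IsProbabilityMeasure p] :
    IsLamPlus (coc p) p (Real.log 2) ∧ IsLamMinus (coc p) p (-Real.log 2) := by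
  have hae := ae_no_coincidence (ν := p) (measurableSet_null_points p) fun a ha => ha
  have hps : ∀ n, ps (fun _ => 0) n = n ∧ sg (fun _ => 0) n = 1 := by
    intro n
    induction n with
    | zero => simp [ps, sg]
    | succ n ih =>
      rw [ps, sg, ih.1, ih.2]
      push_cast
      constructor <;> ring
  have key : ∀ x : ℤ → X, (∀ n : ℕ, ¬ (x n = x ((n + 1 : ℕ) : ℤ) ∧ p {x n} = 0)) → ∀ n : ℕ,
      Real.log ‖iter (coc p) n x‖ = n * Real.log 2 ∧
      Real.log (‖(iter (coc p) n x)⁻¹‖⁻¹) = -(n * Real.log 2) := by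
    intro x hx n
    have h1 := log_norm_iter (p := p) (x := x) (y := fun _ => 0) (fun _ => Or.inl rfl)
      (fun n => ⟨fun h => absurd h (hx n), fun h => by norm_num at h⟩) n
    rw [(hps n).1, abs_of_nonneg (by positivity : (0 : ℝ) ≤ n)] at h1
    exact h1
  constructor
  · filter_upwards [hae] with x hx
    refine Tendsto.congr' ?_ tendsto_const_nhds
    filter_upwards [eventually_gt_atTop 0] with n hn
    have hn' : (n : ℝ) ≠ 0 := by positivity
    rw [(key x hx n).1]
    field_simp
  · filter_upwards [hae] with x hx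
    refine Tendsto.congr' ?_ tendsto_const_nhds
    filter_upwards [eventually_gt_atTop 0] with n hn
    have hn' : (n : ℝ) ≠ 0 := by positivity
    rw [(key x hx n).2]
    field_simp

/-- The perturbed measure. -/
noncomputable def pert (p : Measure X) (z : X) (t : ℝ) : Measure X :=
  ENNReal.ofReal (1 - t) • p + ENNReal.ofReal t • Measure.dirac z

theorem pert_prob (p : Measure X) [IsProbabilityMeasure p] (z : X) {t : ℝ} (ht0 : 0 ≤ t)
    (ht1 : t ≤ 1) : IsProbabilityMeasure (pert p z t) := by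
  constructor
  unfold pert
  simp only [Measure.coe_add, Measure.coe_smul, Pi.add_apply, Pi.smul_apply, measure_univ,
    smul_eq_mul, mul_one]
  rw [← ENNReal.ofReal_add (by linarith) ht0]
  simp

theorem pert_singleton (p : Measure X) [IsProbabilityMeasure p] {z a : X} {t : ℝ}
    (ha : p {a} = 0) (haz : a ≠ z) : pert p z t {a} = 0 := by
  unfold pert
  simp only [Measure.coe_add, Measure.coe_smul, Pi.add_apply, Pi.smul_apply, smul_eq_mul]
  rw [ha, mul_zero, zero_add, Measure.dirac_apply' _ (measurableSet_singleton a)]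
  have : z ∉ ({a} : Set X) := fun h => haz (by simpa using h.symm)
  simp [this]

theorem exponents_q (p : Measure X) [IsProbabilityMeasure p] {z : X} (hz : p {z} = 0) {t : ℝ}
    (ht0 : 0 < t) (ht1 : t ≤ 1) :
    IsLamPlus (coc p) (pert p z t) 0 ∧ IsLamMinus (coc p) (pert p z t) 0 := by
  have := pert_prob p z ht0.le ht1
  set q := pert p z t with hq
  have hW : MeasurableSet ({a : X | p {a} = 0} \ {z}) :=
    (measurableSet_null_points p).diff (measurableSet_singleton z)
  have hae := ae_no_coincidence (ν := q) hW fun a ha => pert_singleton p ha.1 (by simpa using ha.2)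
  have hint : ∫ a, ptInd z a ∂q = t := by
    have h1 : ptInd z = Set.indicator ({z} : Set X) (fun _ => (1 : ℝ)) := by
      funext a
      unfold ptInd
      by_cases h : a = z
      · subst h; simp
      · simp [h]
    rw [h1, integral_indicator (measurableSet_singleton z), integral_const, smul_eq_mul, mul_one,
      Measure.real, Measure.restrict_apply_univ, hq]
    unfold pert
    simp only [Measure.coe_add, Measure.coe_smul, Pi.add_apply, Pi.smul_apply, smul_eq_mul]
    rw [hz, mul_zero, zero_add, Measure.dirac_apply' _ (measurableSet_singleton z)]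
    simp [ht0.le]
  have hzero := ae_tendsto_zero (q := q) ht0 hint
  have key : ∀ᵐ x ∂(bernoulli q), Tendsto (fun n : ℕ => |ps (drv z x) n / n| * Real.log 2) atTop
      (𝓝 0) ∧ ∀ n : ℕ, (x n = x ((n + 1 : ℕ) : ℤ) ∧ p {x n} = 0) ↔
        drv z x n * drv z x (n + 1) = 1 := by
    have hzero' : ∀ᵐ x ∂(bernoulli q), Tendsto (fun n : ℕ => ps (drv z x) n / n) atTop (𝓝 0) :=
      hzero
    filter_upwards [hae, hzero'] with x hx hx0
    refine ⟨?_, fun n => ?_⟩
    · have := (hx0.abs).mul_const (Real.log 2)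
      simpa using this
    · constructor
      · rintro ⟨h1, h2⟩
        have h3 : x n = z := by
          by_contra hne
          exact hx n ⟨h1, h2, by simpa using hne⟩
        have h4 : x ((n + 1 : ℕ) : ℤ) = z := by rw [← h1, h3]
        unfold drv ptInd
        rw [if_pos h3, if_pos h4, one_mul]
      · intro h
        unfold drv ptInd at h
        by_cases h3 : x n = z
        · by_cases h4 : x ((n + 1 : ℕ) : ℤ) = z
          · exact ⟨by rw [h3, h4], by rw [h3]; exact hz⟩
          · rw [if_neg h4, mul_zero] at h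
            norm_num at h
        · rw [if_neg h3, zero_mul] at h
          norm_num at h
  constructor
  · filter_upwards [key] with x hx
    refine hx.1.congr fun n => ?_
    rw [(log_norm_iter (drv_cases z x) hx.2 n).1, abs_div, abs_of_nonneg (by positivity : (0 : ℝ) ≤ n)]
    ring
  · filter_upwards [key] with x hx
    have h1 := hx.1.neg
    rw [neg_zero] at h1
    refine h1.congr fun n => ?_
    rw [(log_norm_iter (drv_cases z x) hx.2 n).2, abs_div, abs_of_nonneg (by positivity : (0 : ℝ) ≤ n)]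
    ring

theorem dProb_pert_le (p : Measure X) [IsProbabilityMeasure p] (z : X) {t : ℝ} (ht0 : 0 ≤ t)
    (ht1 : t ≤ 1) : dProb p (pert p z t) ≤ ENNReal.ofReal (2 * t) := by
  unfold dProb
  refine iSup_le fun φ => iSup_le fun hφ => iSup_le fun hb => ENNReal.ofReal_le_ofReal ?_
  have hi1 : Integrable φ p := Integrable.of_bound hφ.aestronglyMeasurable 1
    (Filter.Eventually.of_forall fun a => by rw [Real.norm_eq_abs]; exact hb a)
  have hi2 : Integrable φ (Measure.dirac z) := Integrable.of_bound hφ.aestronglyMeasurable 1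
    (Filter.Eventually.of_forall fun a => by rw [Real.norm_eq_abs]; exact hb a)
  have h1 : ∫ a, φ a ∂(pert p z t) = (1 - t) * ∫ a, φ a ∂p + t * φ z := by
    unfold pert
    rw [integral_add_measure (hi1.smul_measure ENNReal.ofReal_ne_top)
      (hi2.smul_measure ENNReal.ofReal_ne_top), integral_smul_measure, integral_smul_measure,
      integral_dirac, ENNReal.toReal_ofReal (by linarith), ENNReal.toReal_ofReal ht0, smul_eq_mul,
      smul_eq_mul]
  rw [h1]
  have h2 : |∫ a, φ a ∂p| ≤ 1 := by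
    have := norm_integral_le_of_norm_le_const (μ := p) (f := φ) (C := 1)
      (Filter.Eventually.of_forall fun a => by rw [Real.norm_eq_abs]; exact hb a)
    simpa using this
  have h3 := hb z
  have h4 : ∫ a, φ a ∂p - ((1 - t) * ∫ a, φ a ∂p + t * φ z) = t * (∫ a, φ a ∂p - φ z) := by ring
  rw [h4, abs_mul, abs_of_nonneg ht0]
  have h5 : |∫ a, φ a ∂p - φ z| ≤ 2 := (abs_sub _ _).trans (by linarith)
  nlinarith

/-- In each neighbourhood of `(A, p)` there is a pair `(A, q)` with both exponents zero. -/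
theorem exists_pert (p : Measure X) [IsProbabilityMeasure p]
    (hp : ∀ S : Set X, S.Countable → p S ≠ 1) {N : ℕ} (hN : 1 ≤ N) {γ : ℝ} (hγ : 0 < γ)
    {Z : Set X} (hZm : MeasurableSet Z) (hZ : p Z = 1) :
    ∃ q : Measure X, InV N (coc p) p γ Z (coc p) q ∧ IsLamPlus (coc p) q 0 ∧
      IsLamMinus (coc p) q 0 := by
  obtain ⟨z, hzZ, hz⟩ : ∃ z ∈ Z, p {z} = 0 := by
    by_contra hcon
    push Not at hcon
    have hcount : {a : X | 0 < p {b : X | b = a}}.Countable :=
      Measure.countable_meas_level_set_pos measurable_id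
    have hsub : Z ⊆ {a : X | 0 < p {b : X | b = a}} := by
      intro a ha
      have := hcon a ha
      rw [Set.mem_ofPred_eq, Set.ofPred_eq_eq_singleton]
      exact pos_iff_ne_zero.mpr this
    exact hp Z (hcount.mono hsub) hZ
  set t : ℝ := min (γ / 4) (1 / 2) with ht
  have ht0 : 0 < t := lt_min (by linarith) (by norm_num)
  have ht1 : t ≤ 1 := (min_le_right _ _).trans (by norm_num)
  have ht2 : t ≤ γ / 4 := min_le_left _ _
  refine ⟨pert p z t, ⟨isCocycle_coc p hN, pert_prob p z ht0.le ht1, ?_, ?_, ?_⟩,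
    exponents_q p hz ht0 ht1⟩
  · have : dCoc (coc p) (coc p) = 0 := by
      unfold dCoc
      simp
    rw [this]
    exact ENNReal.ofReal_pos.mpr hγ
  · unfold pert
    simp only [Measure.coe_add, Measure.coe_smul, Pi.add_apply, Pi.smul_apply, smul_eq_mul]
    rw [hZ, Measure.dirac_apply' _ hZm]
    simp only [hzZ, Set.indicator_of_mem, Pi.one_apply, mul_one]
    rw [← ENNReal.ofReal_add (by linarith) ht0.le]
    simp
  · refine (dProb_pert_le p z ht0.le ht1).trans_lt ?_
    exact (ENNReal.ofReal_lt_ofReal_iff hγ).mpr (by linarith)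

end main

/-- **Disproof for every range `N ≥ 1`.** Let `X` be a Polish space and `p` a Borel probability on
`X` not carried by a countable set (such a `p` exists on `X = ℝ`). For every `N ≥ 1` there is a
locally constant cocycle `A` of range `N` with `λ₊(A, p) = log 2`, `λ₋(A, p) = -log 2`, such that
each basic neighbourhood `V(A, p, γ, Z)` contains a pair `(A, q)` with `λ₊(A, q) = λ₋(A, q) = 0`;
so neither exponent is continuous at `(A, p)`. -/
theorem result :
    (∃ p : Measure ℝ, IsProbabilityMeasure p ∧ ∀ S : Set ℝ, S.Countable → p S ≠ 1) ∧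
    ∀ (X : Type) [TopologicalSpace X] [PolishSpace X] [MeasurableSpace X] [BorelSpace X]
      (p : Measure X) [IsProbabilityMeasure p], (∀ S : Set X, S.Countable → p S ≠ 1) →
      ∀ N : ℕ, 1 ≤ N → ∃ A : (ℤ → X) → Mat, IsCocycle N A ∧
        IsLamPlus A p (Real.log 2) ∧ IsLamMinus A p (-Real.log 2) ∧
        (∀ γ : ℝ, 0 < γ → ∀ Z : Set X, MeasurableSet Z → p Z = 1 →
          ∃ q : Measure X, InV N A p γ Z A q ∧ IsLamPlus A q 0 ∧ IsLamMinus A q 0) ∧
        ¬ PlusContinuousAt N A p ∧ ¬ MinusContinuousAt N A p := by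
  refine ⟨⟨volume.restrict (Set.Icc (0 : ℝ) 1), ⟨by simp⟩, fun S hS => ?_⟩, ?_⟩
  · have : (volume.restrict (Set.Icc (0 : ℝ) 1)) S = 0 := hS.measure_zero _
    rw [this]
    norm_num
  · intro X _ _ _ _ p _ hp N hN
    have hlog : 0 < Real.log 2 := Real.log_pos (by norm_num)
    refine ⟨coc p, isCocycle_coc p hN, (exponents_p p).1, (exponents_p p).2,
      fun γ hγ Z hZm hZ => exists_pert p hp hN hγ hZm hZ, ?_, ?_⟩
    · intro h
      obtain ⟨γ, hγ, Z, hZm, hZ, h1⟩ := h (Real.log 2) hlog
      obtain ⟨q, hq, hq1, hq2⟩ := exists_pert p hp hN hγ hZm hZ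
      have := h1 _ q hq _ _ (exponents_p p).1 hq1
      rw [zero_sub, abs_neg, abs_of_pos hlog] at this
      exact lt_irrefl _ this
    · intro h
      obtain ⟨γ, hγ, Z, hZm, hZ, h1⟩ := h (Real.log 2) hlog
      obtain ⟨q, hq, hq1, hq2⟩ := exists_pert p hp hN hγ hZm hZ
      have := h1 _ q hq _ _ (exponents_p p).2 hq2
      rw [zero_sub, neg_neg, abs_of_pos hlog] at this
      exact lt_irrefl _ this

end Pool.Agent.Results.MP_d98278_an.RangeOneJump
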